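import Pool.Agent.L7h13.NAf.Moll
import Pool.Agent.R765.CAll
import Pool.Agent.Y207.SH.MStepA

/-!
# Gluing the mollification of a nearly affine homeomorphism to the homeomorphism (project NAf)
-/

set_option autoImplicit false

open Set Filter Topology MeasureTheory Metric
open scoped ContDiff Manifold

noncomputable section

namespace Pool.Agent.L7h13.NAf

variable {n : ℕ}

/-- local diffeomorphisms at a point -/
abbrev LD (f : E n → E n) (x : E n) : Prop := Pool.Agent.Y522.LD n f x

theorem norm_le_of_basis (P : E n →L[ℝ] E n) {κ : ℝ} (hκ : 0 ≤ κ)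
    (h : ∀ j, ‖P (EuclideanSpace.single j 1)‖ ≤ κ) (v : E n) :
    ‖P v‖ ≤ κ * Real.sqrt n * ‖v‖ := by
  have h1 : v = ∑ j, v j • (EuclideanSpace.single j (1 : ℝ) : E n) := by
    have := (EuclideanSpace.basisFun (Fin n) ℝ).sum_repr v
    simpa using this.symm
  have h2 : ‖P v‖ ≤ ∑ j, |v j| * κ := by
    conv_lhs => rw [h1, map_sum]
    refine (norm_sum_le _ _).trans (Finset.sum_le_sum fun j _ => ?_)
    rw [map_smul, norm_smul, Real.norm_eq_abs]
    exact mul_le_mul_of_nonneg_left (h j) (abs_nonneg _)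
  have h3 : ∑ j, |v j| ≤ Real.sqrt n * ‖v‖ := by
    rw [EuclideanSpace.norm_eq, ← Real.sqrt_mul (by positivity)]
    refine Real.le_sqrt_of_sq_le ?_
    have h4 := Finset.sum_mul_sq_le_sq_mul_sq Finset.univ (fun _ : Fin n => (1 : ℝ)) fun j => |v j|
    simpa using h4
  calc ‖P v‖ ≤ (∑ j, |v j|) * κ := by rw [Finset.sum_mul]; exact h2
    _ ≤ (Real.sqrt n * ‖v‖) * κ := mul_le_mul_of_nonneg_right h3 hκ
    _ = κ * Real.sqrt n * ‖v‖ := by ring

theorem norm_le_of_coord {c : ℝ} {v : E n} (h : ∀ i, |v i| < c) (hn : 0 < n) :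
    ‖v‖ ≤ Real.sqrt n * c := by
  have hc : 0 < c := (abs_nonneg _).trans_lt (h ⟨0, hn⟩)
  rw [EuclideanSpace.norm_eq]
  have h2 : ∑ i, ‖v i‖ ^ 2 ≤ n * c ^ 2 := by
    calc ∑ i, ‖v i‖ ^ 2 ≤ ∑ _i : Fin n, c ^ 2 := by
          refine Finset.sum_le_sum fun i _ => ?_
          rw [Real.norm_eq_abs]
          exact pow_le_pow_left₀ (abs_nonneg _) (h i).le 2
      _ = n * c ^ 2 := by simp
  calc Real.sqrt (∑ i, ‖v i‖ ^ 2) ≤ Real.sqrt (n * c ^ 2) := Real.sqrt_le_sqrt h2
    _ = Real.sqrt n * c := by rw [Real.sqrt_mul (by positivity), Real.sqrt_sq hc.le]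

/-- mollification commutes with linear maps -/
theorem fderiv_moll_comp {K : E n → ℝ} (hK : ContDiff ℝ ∞ K) (hKc : HasCompactSupport K)
    {f : E n → E n} (hf : LocallyIntegrable f volume) (L : E n →L[ℝ] E n)
    (hLf : LocallyIntegrable (fun t => L (f t)) volume) (x v : E n) :
    fderiv ℝ (moll K fun t => L (f t)) x v = L (fderiv ℝ (moll K f) x v) := by
  have hgi : Continuous fun y => fderiv ℝ K y v :=
    (hK.continuous_fderiv (by simp)).clm_apply continuous_const
  have hgs : HasCompactSupport fun y => fderiv ℝ K y v :=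
    (hKc.fderiv (𝕜 := ℝ)).comp_left (g := fun L : E n →L[ℝ] ℝ => L v) (by simp)
  rw [fderiv_moll hK hKc hf, fderiv_moll hK hKc hLf,
    ← ContinuousLinearMap.integral_comp_comm L (integrable_smul hgi hgs hf x)]
  simp only [map_smul]

/-- uniform differentiability near a compact set -/
theorem unif_diff {T W : Set (E n)} (hT : IsCompact T) (hW : IsOpen W) (hTW : T ⊆ W)
    {f : E n → E n} (hf : ∀ x ∈ W, ContDiffAt ℝ ∞ f x) {η : ℝ} (hη : 0 < η) :
    ∃ c > 0, ∀ x ∈ T, ∀ t, dist t x < c → ‖f t - (f x + fderiv ℝ f x (t - x))‖ ≤ η * ‖t - x‖ := by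
  obtain ⟨τ, hτ, hτW⟩ := hT.exists_cthickening_subset_open hW hTW
  have hT' : IsCompact (cthickening τ T) := hT.cthickening
  have hc : ContinuousOn (fderiv ℝ f) (cthickening τ T) := fun x hx =>
    ((hf x (hτW hx)).fderiv_right (m := 0) (by simp)).continuousAt.continuousWithinAt
  have hu := hT'.uniformContinuousOn_of_continuous hc
  rw [Metric.uniformContinuousOn_iff] at hu
  obtain ⟨d, hd, hd2⟩ := hu η hη
  refine ⟨min d τ, lt_min hd hτ, fun x hx t ht => ?_⟩
  have hball : ∀ z ∈ ball x (min d τ), z ∈ cthickening τ T := fun z hz =>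
    mem_cthickening_of_dist_le z x τ T hx ((mem_ball.1 hz).le.trans (min_le_right _ _))
  have h1 := (convex_ball x (min d τ)).norm_image_sub_le_of_norm_hasFDerivWithin_le' (𝕜 := ℝ)
    (f := f) (f' := fderiv ℝ f) (φ := fderiv ℝ f x) (C := η) (x := x) (y := t)
    (fun z hz => ((hf z (hτW (hball z hz))).differentiableAt (by simp)).hasFDerivAt.hasFDerivWithinAt)
    (fun z hz => by
      rw [← dist_eq_norm]
      exact (hd2 z (hball z hz) x (hball x (mem_ball_self (lt_min hd hτ)))
        ((mem_ball.1 hz).trans_le (min_le_left _ _))).le)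
    (mem_ball_self (lt_min hd hτ)) (mem_ball.2 ht)
  rw [← sub_sub]
  exact h1

/-- lower bound of the derivative of a local diffeomorphism on a compact set -/
theorem lower_bound {T W : Set (E n)} (hT : IsCompact T) (hTW : T ⊆ W)
    {f : E n → E n} (hf : ∀ x ∈ W, LD f x) :
    ∃ m > 0, ∀ x ∈ T, ∀ v, m * ‖v‖ ≤ ‖fderiv ℝ f x v‖ := by
  rcases (T ×ˢ sphere (0 : E n) 1).eq_empty_or_nonempty with h0 | h0
  · refine ⟨1, one_pos, fun x hx v => ?_⟩
    have h1 : v = 0 := by
      by_contra hv
      have hn : ‖v‖ ≠ 0 := norm_ne_zero_iff.2 hv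
      have : ((x, ‖v‖⁻¹ • v) : E n × E n) ∈ T ×ˢ sphere (0 : E n) 1 := by
        refine ⟨hx, ?_⟩
        rw [mem_sphere_zero_iff_norm, norm_smul, norm_inv, norm_norm, inv_mul_cancel₀ hn]
      rw [h0] at this
      exact this
    rw [h1]
    simp
  · have hcomp : IsCompact (T ×ˢ sphere (0 : E n) 1) := hT.prod (isCompact_sphere _ _)
    have hcont : ContinuousOn (fun p : E n × E n => ‖fderiv ℝ f p.1 p.2‖)
        (T ×ˢ sphere (0 : E n) 1) := by
      refine ContinuousOn.norm ?_
      refine ContinuousOn.clm_apply ?_ continuousOn_snd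
      have h2 : ContinuousOn (fderiv ℝ f) T := fun x hx =>
        ((hf x (hTW hx)).contDiffAt.fderiv_right (m := 0) (by simp)).continuousAt.continuousWithinAt
      exact h2.comp continuousOn_fst fun p hp => hp.1
    obtain ⟨⟨x0, v0⟩, hx0, hmin⟩ := hcomp.exists_isMinOn h0 hcont
    refine ⟨‖fderiv ℝ f x0 v0‖, ?_, fun x hx v => ?_⟩
    · rw [gt_iff_lt, norm_pos_iff]
      intro h3
      obtain ⟨A, hA⟩ := (hf x0 (hTW hx0.1)).exists_equiv
      have h4 : A v0 = 0 := by
        have := hA.fderiv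
        rw [this] at h3
        exact h3
      have h5 : v0 = 0 := by
        rw [← A.symm_apply_apply v0, h4, map_zero]
      have h6 := hx0.2
      rw [h5] at h6
      simp at h6
    · rcases eq_or_ne v 0 with rfl | hv
      · simp
      · have hn : ‖v‖ ≠ 0 := norm_ne_zero_iff.2 hv
        have h7 : ((x, ‖v‖⁻¹ • v) : E n × E n) ∈ T ×ˢ sphere (0 : E n) 1 := by
          refine ⟨hx, ?_⟩
          rw [mem_sphere_zero_iff_norm, norm_smul, norm_inv, norm_norm, inv_mul_cancel₀ hn]
        have h8 := hmin h7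
        simp only [mem_ofPred_eq, map_smul, norm_smul, norm_inv, norm_norm] at h8
        rw [le_inv_mul_iff₀ (norm_pos_iff.2 hv), mul_comm] at h8
        exact h8

theorem glue (hn : 0 < n) {U : Set (E n)} (hU : IsOpen U) {f : E n → E n}
    (hf : ContinuousOn f U) {B : Set (E n)} (hB : IsCompact B) (hBU : B ⊆ U)
    (hld : ∀ x ∈ U, x ∉ B → LD f x) {ε : ℝ} (hε0 : 0 ≤ ε) (hε : 10 / 9 * ε * n < 1)
    {ρ : ℝ} (hρ : 0 < ρ)
    (hna : ∀ r0 : ℝ, 0 < r0 → ∃ r : ℝ, 0 < r ∧ r < r0 ∧ ∀ b ∈ B, ∀ x ∈ U, dist x b < ρ →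
      ∃ L : E n ≃L[ℝ] E n, ∀ y ∈ U, dist y x ≤ r → ‖L (f y - f x) - (y - x)‖ ≤ ε * r)
    {O : Set (E n × E n)} (hO : IsOpen O) (hfO : ∀ x ∈ U, (x, f x) ∈ O) :
    ∃ (F : E n → E n) (C : Set (E n)), IsCompact C ∧ C ⊆ U ∧ (∀ x, x ∉ C → F x = f x) ∧
      (∀ x ∈ U, LD F x) ∧ ∀ x ∈ U, ∀ s : ℝ, 0 ≤ s → s ≤ 1 → (x, f x + s • (F x - f x)) ∈ O := by
  obtain ⟨δ0, hδ0, hδU0⟩ := hB.exists_cthickening_subset_open hU hBU
  obtain ⟨δ, hδ, hδρ, hδδ0⟩ : ∃ δ : ℝ, 0 < δ ∧ δ ≤ ρ ∧ δ ≤ δ0 :=
    ⟨min ρ δ0, lt_min hρ hδ0, min_le_left _ _, min_le_right _ _⟩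
  have hδU : cthickening δ B ⊆ U := (cthickening_mono hδδ0 B).trans hδU0
  -- the sets
  obtain ⟨K2, hK2d⟩ : ∃ K2 : Set (E n), K2 = cthickening δ B := ⟨_, rfl⟩
  obtain ⟨K1, hK1d⟩ : ∃ K1 : Set (E n), K1 = cthickening (2 * δ / 3) B := ⟨_, rfl⟩
  have hK2 : IsCompact K2 := by rw [hK2d]; exact hB.cthickening
  have hK1 : IsCompact K1 := by rw [hK1d]; exact hB.cthickening
  have hK2U : K2 ⊆ U := by rw [hK2d]; exact hδU
  have hK12 : K1 ⊆ K2 := by
    rw [hK1d, hK2d]
    exact cthickening_mono (by linarith) B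
  have hK12' : ∀ x ∈ K1, ∀ t, dist t x < δ / 3 → t ∈ K2 := by
    intro x hx t ht
    rw [hK1d, mem_cthickening_iff] at hx
    rw [hK2d, mem_cthickening_iff]
    have h1 : infEDist t B ≤ infEDist x B + edist t x := infEDist_le_infEDist_add_edist
    have h2 : edist t x ≤ ENNReal.ofReal (δ / 3) := by
      rw [edist_dist]
      exact ENNReal.ofReal_le_ofReal ht.le
    calc infEDist t B ≤ ENNReal.ofReal (2 * δ / 3) + ENNReal.ofReal (δ / 3) :=
          h1.trans (add_le_add hx h2)
      _ = ENNReal.ofReal δ := by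
          rw [← ENNReal.ofReal_add (by positivity) (by positivity)]
          congr 1
          ring
  obtain ⟨T, hTd⟩ : ∃ T : Set (E n), T = K1 \ thickening (δ / 3) B := ⟨_, rfl⟩
  have hT : IsCompact T := by rw [hTd]; exact hK1.diff isOpen_thickening
  have hTW : T ⊆ U ∩ Bᶜ := by
    rw [hTd]
    rintro x ⟨hx1, hx2⟩
    refine ⟨hK2U (hK12 hx1), fun hxB => hx2 ?_⟩
    exact self_subset_thickening (by positivity) B hxB
  have hWo : IsOpen (U ∩ Bᶜ) := hU.inter hB.isClosed.isOpen_compl
  have hWld : ∀ x ∈ U ∩ Bᶜ, LD f x := fun x hx => hld x hx.1 hx.2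
  -- the cutoff function
  obtain ⟨ψ, hψ0, hψ1, hψ⟩ := exists_contMDiffMap_zero_one_of_isClosed (n := ⊤) 𝓘(ℝ, E n)
    (s := (thickening (2 * δ / 3) B)ᶜ) (t := cthickening (δ / 3) B)
    isOpen_thickening.isClosed_compl isClosed_cthickening (by
      rw [disjoint_compl_left_iff_subset]
      exact cthickening_subset_thickening' (by positivity) (by linarith) B)
  have hψs : ContDiff ℝ ∞ ψ := ψ.contMDiff.contDiff
  obtain ⟨M, hM⟩ : ∃ M : ℝ, ∀ x ∈ T, ‖fderiv ℝ ψ x‖ ≤ M :=
    hT.exists_bound_of_continuousOn (hψs.continuous_fderiv (by simp)).continuousOn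
  have hM1 : ∀ x ∈ T, ‖fderiv ℝ ψ x‖ ≤ |M| + 1 := fun x hx =>
    (hM x hx).trans ((le_abs_self M).trans (by linarith))
  obtain ⟨m, hm, hmT⟩ := lower_bound hT hTW hWld
  -- the extended function
  obtain ⟨f', hf'd⟩ : ∃ f' : E n → E n, f' = K2.indicator f := ⟨_, rfl⟩
  have hf'i : Integrable f' := by
    rw [hf'd, integrable_indicator_iff hK2.measurableSet]
    exact (hf.mono hK2U).integrableOn_compact hK2
  have hf'l : LocallyIntegrable f' volume := hf'i.locallyIntegrable
  have hf'2 : ∀ t ∈ K2, f' t = f t := fun t ht => by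
    rw [hf'd]
    exact indicator_of_mem ht f
  -- the constants
  have hn0 : (0 : ℝ) < n := Nat.cast_pos.2 hn
  have hsn : 0 < Real.sqrt n := Real.sqrt_pos.2 hn0
  have hsn2 : Real.sqrt n * Real.sqrt n = n := Real.mul_self_sqrt hn0.le
  -- the neighbourhood of the graph
  have hgr : IsCompact ((fun x => (x, f x)) '' K1) := by
    refine hK1.image_of_continuousOn ?_
    exact continuousOn_id.prodMk (hf.mono (hK12.trans hK2U))
  obtain ⟨η0, hη0, hη0O⟩ := hgr.exists_cthickening_subset_open hO (by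
    rintro _ ⟨x, hx, rfl⟩
    exact hfO x (hK2U (hK12 hx)))
  obtain ⟨η1, hη1, hη10, hη1m⟩ : ∃ η1 : ℝ, 0 < η1 ∧ η1 ≤ η0 ∧ (|M| + 1) * η1 ≤ m / 3 := by
    refine ⟨min η0 (m / (3 * (|M| + 1))), lt_min hη0 (by positivity), min_le_left _ _, ?_⟩
    calc (|M| + 1) * min η0 (m / (3 * (|M| + 1))) ≤ (|M| + 1) * (m / (3 * (|M| + 1))) :=
          mul_le_mul_of_nonneg_left (min_le_right _ _) (by positivity)
      _ = m / 3 := by field_simp
  -- uniform continuity
  have huc := hK2.uniformContinuousOn_of_continuous (hf.mono hK2U)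
  rw [Metric.uniformContinuousOn_iff] at huc
  obtain ⟨d1, hd1, hd1'⟩ := huc η1 hη1
  obtain ⟨d2, hd2, hd2'⟩ := unif_diff hT hWo hTW (fun x hx => (hWld x hx).contDiffAt)
    (η := m / (4 * n)) (by positivity)
  obtain ⟨r, hr, hr0, hrL⟩ := hna (min (min d1 d2) (δ / 3)) (by positivity)
  have hrd1 : r < d1 := hr0.trans_le ((min_le_left _ _).trans (min_le_left _ _))
  have hrd2 : r < d2 := hr0.trans_le ((min_le_left _ _).trans (min_le_right _ _))
  have hrd3 : r < δ / 3 := hr0.trans_le (min_le_right _ _)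
  obtain ⟨c, hcd⟩ : ∃ c : ℝ, c = r / Real.sqrt n := ⟨_, rfl⟩
  have hc : 0 < c := by rw [hcd]; positivity
  have hcr : Real.sqrt n * c = r := by rw [hcd]; field_simp
  obtain ⟨K, hK⟩ := exists_isKer n hc
  have hnear : ∀ x t : E n, (∀ i, |(t - x) i| < c) → dist t x ≤ r := by
    intro x t ht
    rw [dist_eq_norm, ← hcr]
    exact norm_le_of_coord ht hn
  -- the mollification
  obtain ⟨G, hGd⟩ : ∃ G : E n → E n, G = moll K f' := ⟨_, rfl⟩
  have hGs : ContDiff ℝ ∞ G := by rw [hGd]; exact moll_contDiff hK.smooth hK.compact hf'l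
  have hGf : ∀ x ∈ K1, ‖G x - f x‖ ≤ η1 := by
    intro x hx
    rw [hGd]
    refine moll_close hK hf'l x (f x) hη1.le fun t ht => ?_
    have h1 := hnear x t ht
    have h2 : t ∈ K2 := hK12' x hx t (h1.trans_lt hrd3)
    rw [hf'2 t h2, ← dist_eq_norm]
    exact (hd1' t h2 x (hK12 hx) (h1.trans_lt hrd1)).le
  -- the derivative near the bad set
  have hGB : ∀ x ∈ thickening (δ / 3) B, ∀ v : E n, v ≠ 0 → fderiv ℝ G x v ≠ 0 := by
    intro x hx v hv
    rw [mem_thickening_iff] at hx
    obtain ⟨b, hb, hxb⟩ := hx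
    have hx1 : x ∈ K1 := by
      rw [hK1d]
      exact mem_cthickening_of_dist_le x b _ B hb (by linarith)
    obtain ⟨L, hL⟩ := hrL b hb x (hK2U (hK12 hx1)) (by linarith)
    have hLl : LocallyIntegrable (fun t => (L : E n →L[ℝ] E n) (f' t)) volume :=
      ((L : E n →L[ℝ] E n).integrable_comp hf'i).locallyIntegrable
    have h3 : ∀ j, ‖((L : E n →L[ℝ] E n).comp (fderiv ℝ G x) - ContinuousLinearMap.id ℝ (E n))
        (EuclideanSpace.single j 1)‖ ≤ ε * r * (10 / (9 * c)) := by
      intro j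
      have h4 := fderiv_moll_close hc hK hLl x (L (f x)) (ContinuousLinearMap.id ℝ (E n))
        (η := ε * r) (by positivity) (fun t ht => by
          have h1 := hnear x t ht
          have h2 : t ∈ K2 := hK12' x hx1 t (h1.trans_lt hrd3)
          have h5 := hL t (hK2U h2) h1
          rw [hf'2 t h2]
          have h6 : (L : E n →L[ℝ] E n) (f t) - (L (f x) + ContinuousLinearMap.id ℝ (E n) (t - x)) =
              L (f t - f x) - (t - x) := by
            have h7 : L (f t - f x) = L (f t) - L (f x) := map_sub L _ _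
            rw [h7]
            simp only [ContinuousLinearEquiv.coe_coe, ContinuousLinearMap.id_apply]
            abel
          rw [h6]
          exact h5) j
      rw [fderiv_moll_comp hK.smooth hK.compact hf'l (L : E n →L[ℝ] E n) hLl] at h4
      rw [hGd]
      exact h4
    have h7 := norm_le_of_basis _ (by positivity) h3 v
    intro h0
    have h8 : ((L : E n →L[ℝ] E n).comp (fderiv ℝ G x) - ContinuousLinearMap.id ℝ (E n)) v = -v := by
      simp [h0]
    rw [h8, norm_neg] at h7
    have h9 : ε * r * (10 / (9 * c)) * Real.sqrt n = 10 / 9 * ε * n := by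
      rw [← hcr]
      have : ε * (Real.sqrt n * c) * (10 / (9 * c)) * Real.sqrt n =
        10 / 9 * ε * (Real.sqrt n * Real.sqrt n) := by field_simp
      rw [this, hsn2]
    rw [h9] at h7
    have h10 : 0 < ‖v‖ := norm_pos_iff.2 hv
    nlinarith
  -- the derivative on the transition region
  have hGT : ∀ x ∈ T, ∀ v : E n, ‖fderiv ℝ G x v - fderiv ℝ f x v‖ ≤ m / 3 * ‖v‖ := by
    intro x hx v
    have hx1 : x ∈ K1 := by rw [hTd] at hx; exact hx.1
    have h3 : ∀ j, ‖(fderiv ℝ G x - fderiv ℝ f x) (EuclideanSpace.single j 1)‖ ≤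
        m / (4 * n) * r * (10 / (9 * c)) := by
      intro j
      have h4 := fderiv_moll_close hc hK hf'l x (f x) (fderiv ℝ f x) (η := m / (4 * n) * r)
        (by positivity) (fun t ht => by
          have h1 := hnear x t ht
          have h2 : t ∈ K2 := hK12' x hx1 t (h1.trans_lt hrd3)
          rw [hf'2 t h2]
          refine (hd2' x hx t (h1.trans_lt hrd2)).trans ?_
          refine mul_le_mul_of_nonneg_left ?_ (by positivity)
          rw [← dist_eq_norm]
          exact h1) j
      rw [hGd]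
      exact h4
    have h7 := norm_le_of_basis _ (by positivity) h3 v
    have h9 : m / (4 * n) * r * (10 / (9 * c)) * Real.sqrt n = 5 / 18 * m := by
      rw [← hcr]
      have : m / (4 * n) * (Real.sqrt n * c) * (10 / (9 * c)) * Real.sqrt n =
        m / (4 * n) * (10 / 9) * (Real.sqrt n * Real.sqrt n) := by field_simp
      rw [this, hsn2]
      field_simp
      norm_num
    rw [h9] at h7
    refine h7.trans ?_
    have h10 : 0 ≤ ‖v‖ := norm_nonneg v
    nlinarith
  -- the glued function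
  refine ⟨fun x => f x + ψ x • (G x - f x), K1, hK1, hK12.trans hK2U, fun x hx => ?_,
    fun x hx => ?_, fun x hx s hs0 hs1 => ?_⟩
  · have h1 : ψ x = 0 := by
      have := hψ0 (x := x) (fun h => hx (by
        rw [hK1d]
        exact thickening_subset_cthickening _ _ h))
      simpa using this
    show f x + ψ x • (G x - f x) = f x
    rw [h1, zero_smul, add_zero]
  · by_cases h1 : x ∈ thickening (δ / 3) B
    · have h2 : (fun x => f x + ψ x • (G x - f x)) =ᶠ[𝓝 x] G := by
        filter_upwards [isOpen_thickening.mem_nhds h1] with y hy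
        have h3 : ψ y = 1 := by
          have := hψ1 (x := y) (thickening_subset_cthickening _ _ hy)
          simpa using this
        rw [h3, one_smul, add_sub_cancel]
      refine Pool.Agent.Y522.LD.congr ?_ h2
      refine Pool.Agent.Y207.SH3.LD_of_pos (Eventually.of_forall fun y => hGs.contDiffAt) fun u hu => ?_
      refine hGB x h1 u ?_
      rintro rfl
      simp at hu
    · by_cases h2 : x ∈ K1
      · have hxT : x ∈ T := by rw [hTd]; exact ⟨h2, h1⟩
        have hxW := hTW hxT
        have hfs : ∀ᶠ y in 𝓝 x, ContDiffAt ℝ ∞ f y := by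
          filter_upwards [hWo.mem_nhds hxW] with y hy
          exact (hWld y hy).contDiffAt
        have hFs : ∀ᶠ y in 𝓝 x, ContDiffAt ℝ ∞ (fun x => f x + ψ x • (G x - f x)) y := by
          filter_upwards [hfs] with y hy
          exact hy.add (hψs.contDiffAt.smul (hGs.contDiffAt.sub hy))
        refine Pool.Agent.Y207.SH3.LD_of_pos hFs fun u hu => ?_
        have hfd : HasFDerivAt f (fderiv ℝ f x) x :=
          (hfs.self_of_nhds.differentiableAt (by simp)).hasFDerivAt
        have hGd' : HasFDerivAt G (fderiv ℝ G x) x :=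
          (hGs.contDiffAt.differentiableAt (by simp)).hasFDerivAt
        have hψd : HasFDerivAt ψ (fderiv ℝ ψ x) x :=
          (hψs.contDiffAt.differentiableAt (by simp)).hasFDerivAt
        have hFd := hfd.add (hψd.smul (hGd'.sub hfd))
        have hFd2 : fderiv ℝ (fun x => f x + ψ x • (G x - f x)) x u =
            fderiv ℝ f x u + (ψ x • (fderiv ℝ G x u - fderiv ℝ f x u) +
              (fderiv ℝ ψ x u) • (G x - f x)) := by
          have h3 : fderiv ℝ (fun x => f x + ψ x • (G x - f x)) x = _ := hFd.fderiv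
          rw [h3]
          simp
        rw [hFd2]
        intro h0
        have h4 := hmT x hxT u
        have h5 := hGT x hxT u
        have h6 := hM1 x hxT
        have h7 := hGf x h2
        have h8 := hψ x
        rw [hu, mul_one] at h4 h5
        have h9 : ‖ψ x • (fderiv ℝ G x u - fderiv ℝ f x u)‖ ≤ m / 3 := by
          rw [norm_smul, Real.norm_eq_abs, abs_of_nonneg h8.1]
          calc ψ x * ‖fderiv ℝ G x u - fderiv ℝ f x u‖ ≤ 1 * (m / 3) :=
                mul_le_mul h8.2 h5 (norm_nonneg _) zero_le_one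
            _ = m / 3 := one_mul _
        have h10 : ‖(fderiv ℝ ψ x u) • (G x - f x)‖ ≤ m / 3 := by
          rw [norm_smul]
          calc ‖fderiv ℝ ψ x u‖ * ‖G x - f x‖ ≤ (|M| + 1) * η1 := by
                refine mul_le_mul ?_ h7 (norm_nonneg _) (by positivity)
                refine ((fderiv ℝ ψ x).le_opNorm u).trans ?_
                rw [hu, mul_one]
                exact h6
            _ ≤ m / 3 := hη1m
        have h11 : ‖fderiv ℝ f x u‖ ≤ m / 3 + m / 3 := by
          have h12 : fderiv ℝ f x u = -(ψ x • (fderiv ℝ G x u - fderiv ℝ f x u) +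
              (fderiv ℝ ψ x u) • (G x - f x)) := eq_neg_of_add_eq_zero_left h0
          rw [h12, norm_neg]
          exact (norm_add_le _ _).trans (add_le_add h9 h10)
        linarith
      · refine Pool.Agent.Y522.LD.congr (hld x hx fun h => h2 (by
          rw [hK1d]
          exact self_subset_cthickening B h)) ?_
        filter_upwards [hK1.isClosed.isOpen_compl.mem_nhds h2] with y hy
        have h3 : ψ y = 0 := by
          have := hψ0 (x := y) (fun h => hy (by
            rw [hK1d]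
            exact thickening_subset_cthickening _ _ h))
          simpa using this
        rw [h3, zero_smul, add_zero]
  · by_cases h2 : x ∈ K1
    · refine hη0O (mem_cthickening_of_dist_le _ (x, f x) _ _ ⟨x, h2, rfl⟩ ?_)
      rw [Prod.dist_eq]
      refine max_le (by simp [hη0.le]) ?_
      simp only
      rw [dist_eq_norm, add_sub_cancel_left, add_sub_cancel_left, norm_smul, norm_smul,
        Real.norm_eq_abs, Real.norm_eq_abs, abs_of_nonneg hs0, abs_of_nonneg (hψ x).1]
      have h7 := hGf x h2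
      have h8 := hψ x
      calc s * (ψ x * ‖G x - f x‖) ≤ 1 * (1 * η1) := by
            refine mul_le_mul hs1 ?_ (mul_nonneg h8.1 (norm_nonneg _)) zero_le_one
            exact mul_le_mul h8.2 h7 (norm_nonneg _) zero_le_one
        _ ≤ η0 := by linarith
    · have h3 : ψ x = 0 := by
        have := hψ0 (x := x) (fun h => h2 (by
          rw [hK1d]
          exact thickening_subset_cthickening _ _ h))
        simpa using this
      simp only [h3, zero_smul, add_zero, sub_self, smul_zero]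
      exact hfO x hx

end Pool.Agent.L7h13.NAf
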