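import Mathlib

/-!
# Mollifying kernels with an explicit bound for the total variation (project NAf)
-/

set_option autoImplicit false

open Set Filter Topology MeasureTheory
open scoped ContDiff

noncomputable section

namespace Pool.Agent.L7h13.NAf

/-- the profile -/
def s1 (c t : ℝ) : ℝ :=
  Real.smoothTransition (10 * (1 - t / c)) * Real.smoothTransition (10 * (1 + t / c))

theorem s1_contDiff (c : ℝ) : ContDiff ℝ ∞ (s1 c) := by
  unfold s1
  refine ContDiff.mul ?_ ?_
  · exact Real.smoothTransition.contDiff.comp (by fun_prop)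
  · exact Real.smoothTransition.contDiff.comp (by fun_prop)

theorem s1_nonneg (c t : ℝ) : 0 ≤ s1 c t :=
  mul_nonneg (Real.smoothTransition.nonneg _) (Real.smoothTransition.nonneg _)

theorem s1_even (c t : ℝ) : s1 c (-t) = s1 c t := by
  unfold s1
  rw [mul_comm]
  congr 2 <;> ring

theorem s1_pos_side {c : ℝ} (hc : 0 < c) {t : ℝ} (ht : 0 ≤ t) :
    s1 c t = Real.smoothTransition (10 * (1 - t / c)) := by
  unfold s1
  have h1 : 0 ≤ t / c := div_nonneg ht hc.le
  rw [Real.smoothTransition.one_of_one_le (x := 10 * (1 + t / c)) (by linarith), mul_one]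

theorem s1_zero {c : ℝ} (hc : 0 < c) {t : ℝ} (ht : c ≤ |t|) : s1 c t = 0 := by
  have h0 : ∀ u : ℝ, c ≤ u → s1 c u = 0 := by
    intro u hu
    rw [s1_pos_side hc (hc.le.trans hu)]
    apply Real.smoothTransition.zero_of_nonpos
    have : 1 ≤ u / c := by rwa [le_div_iff₀ hc, one_mul]
    linarith
  rcases le_total 0 t with h | h
  · rw [abs_of_nonneg h] at ht
    exact h0 t ht
  · rw [abs_of_nonpos h] at ht
    rw [← s1_even]
    exact h0 _ ht

theorem s1_one {c : ℝ} (hc : 0 < c) {t : ℝ} (ht : |t| ≤ 9 / 10 * c) : s1 c t = 1 := by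
  have h0 : ∀ u : ℝ, 0 ≤ u → u ≤ 9 / 10 * c → s1 c u = 1 := by
    intro u hu0 hu
    rw [s1_pos_side hc hu0]
    apply Real.smoothTransition.one_of_one_le
    have : u / c ≤ 9 / 10 := by rwa [div_le_iff₀ hc]
    linarith
  rcases le_total 0 t with h | h
  · rw [abs_of_nonneg h] at ht
    exact h0 t h ht
  · rw [abs_of_nonpos h] at ht
    rw [← s1_even]
    exact h0 _ (by linarith) ht

theorem s1_anti {c : ℝ} (hc : 0 < c) : AntitoneOn (s1 c) (Ici 0) := by
  intro x hx y hy hxy
  rw [s1_pos_side hc hx, s1_pos_side hc hy]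
  apply Real.smoothTransition.monotone
  have : x / c ≤ y / c := by gcongr
  linarith

theorem s1_deriv_nonpos {c : ℝ} (hc : 0 < c) {t : ℝ} (ht : 0 < t) : deriv (s1 c) t ≤ 0 := by
  have h1 : HasDerivAt (s1 c) (deriv (s1 c) t) t :=
    ((s1_contDiff c).differentiable (by simp)).differentiableAt.hasDerivAt
  have h2 : Tendsto (slope (s1 c) t) (𝓝[>] t) (𝓝 (deriv (s1 c) t)) :=
    (hasDerivAt_iff_tendsto_slope.1 h1).mono_left
      (nhdsWithin_mono _ fun y hy => (ne_of_gt hy : y ≠ t))
  refine le_of_tendsto h2 ?_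
  filter_upwards [self_mem_nhdsWithin] with y hy
  have hy' : t < y := hy
  rw [slope_def_field]
  apply div_nonpos_of_nonpos_of_nonneg
  · have := s1_anti hc (mem_Ici.2 ht.le) (mem_Ici.2 (ht.trans hy').le) hy'.le
    linarith
  · linarith

theorem s1_deriv_odd (c t : ℝ) : deriv (s1 c) (-t) = -deriv (s1 c) t := by
  have h1 : (fun u => s1 c (-u)) = s1 c := funext fun u => s1_even c u
  have h2 : deriv (fun u => s1 c (-u)) t = -deriv (s1 c) (-t) := deriv_comp_neg (s1 c) t
  rw [h1] at h2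
  linarith

theorem s1_compact {c : ℝ} (hc : 0 < c) : HasCompactSupport (s1 c) := by
  refine HasCompactSupport.of_support_subset_isCompact (isCompact_Icc (a := -c) (b := c)) ?_
  intro t ht
  by_contra hcon
  apply ht
  apply s1_zero hc
  rw [mem_Icc, not_and_or, not_le, not_le] at hcon
  rcases hcon with h | h
  · exact le_trans (by linarith) (neg_le_abs t)
  · exact h.le.trans (le_abs_self t)

theorem s1_integrable {c : ℝ} (hc : 0 < c) : Integrable (s1 c) :=
  (s1_contDiff c).continuous.integrable_of_hasCompactSupport (s1_compact hc)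

theorem s1_deriv_cont (c : ℝ) : Continuous (deriv (s1 c)) :=
  (s1_contDiff c).continuous_deriv (by simp)

theorem s1_deriv_integrable {c : ℝ} (hc : 0 < c) : Integrable (deriv (s1 c)) :=
  (s1_deriv_cont c).integrable_of_hasCompactSupport (s1_compact hc).deriv

theorem s1_mass {c : ℝ} (hc : 0 < c) : 9 / 5 * c ≤ ∫ t, s1 c t := by
  have h1 : ∫ t in Icc (-(9 / 10 * c)) (9 / 10 * c), s1 c t ≤ ∫ t, s1 c t :=
    setIntegral_le_integral (s1_integrable hc) (Eventually.of_forall fun t => s1_nonneg c t)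
  have h2 : ∫ t in Icc (-(9 / 10 * c)) (9 / 10 * c), s1 c t =
      ∫ t in Icc (-(9 / 10 * c)) (9 / 10 * c), (1 : ℝ) := by
    refine setIntegral_congr_fun measurableSet_Icc fun t ht => ?_
    exact s1_one hc (abs_le.2 ht)
  rw [h2, setIntegral_const, smul_eq_mul, mul_one, Measure.real, Real.volume_Icc,
    ENNReal.toReal_ofReal (by linarith)] at h1
  linarith

theorem s1_half {c : ℝ} (hc : 0 < c) : ∫ t in Ioi (0 : ℝ), |deriv (s1 c) t| = 1 := by
  have h1 : ∫ t in Ioi (0 : ℝ), |deriv (s1 c) t| = ∫ t in Ioi (0 : ℝ), -deriv (s1 c) t := by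
    refine setIntegral_congr_fun measurableSet_Ioi fun t ht => ?_
    exact abs_of_nonpos (s1_deriv_nonpos hc ht)
  rw [h1, integral_neg]
  have h2 : Tendsto (s1 c) atTop (𝓝 0) := by
    refine tendsto_const_nhds.congr' ?_
    filter_upwards [eventually_ge_atTop c] with t ht
    exact (s1_zero hc (ht.trans (le_abs_self t))).symm
  have h3 : ∫ t in Ioi (0 : ℝ), deriv (s1 c) t = 0 - s1 c 0 := by
    refine integral_Ioi_of_hasDerivAt_of_tendsto' (fun t _ => ?_)
      (s1_deriv_integrable hc).integrableOn h2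
    exact ((s1_contDiff c).differentiable (by simp)).differentiableAt.hasDerivAt
  rw [h3, s1_one hc (by simp; positivity)]
  norm_num

theorem s1_var {c : ℝ} (hc : 0 < c) : ∫ t, |deriv (s1 c) t| = 2 := by
  have h1 : ∫ t, |deriv (s1 c) t| = 2 * ∫ t in Ioi (0 : ℝ), |deriv (s1 c) t| := by
    have h2 := integral_comp_abs (f := fun t => |deriv (s1 c) t|)
    rw [← h2]
    refine integral_congr_ae (Eventually.of_forall fun t => ?_)
    change |deriv (s1 c) t| = |deriv (s1 c) (abs t)|
    rcases le_total 0 t with h | h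
    · rw [abs_of_nonneg h]
    · rw [abs_of_nonpos h, s1_deriv_odd, abs_neg]
  rw [h1, s1_half hc, mul_one]

/-- the kernel on the line -/
theorem ker1 {c : ℝ} (hc : 0 < c) : ∃ k : ℝ → ℝ, ContDiff ℝ ∞ k ∧ (∀ t, 0 ≤ k t) ∧
    (∀ t, k (-t) = k t) ∧ (∀ t, c ≤ |t| → k t = 0) ∧ ∫ t, k t = 1 ∧
    ∫ t, |deriv k t| ≤ 10 / (9 * c) := by
  have hm := s1_mass hc
  have hm0 : 0 < ∫ t, s1 c t := by
    have : 0 < 9 / 5 * c := by positivity
    linarith
  refine ⟨fun t => s1 c t / ∫ t, s1 c t, (s1_contDiff c).div_const _, fun t =>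
    div_nonneg (s1_nonneg c t) hm0.le, fun t => ?_, fun t ht => ?_, ?_, ?_⟩
  · simp only [s1_even]
  · simp only [s1_zero hc ht, zero_div]
  · rw [integral_div, div_self hm0.ne']
  · have h1 : ∀ t, |deriv (fun t => s1 c t / ∫ t, s1 c t) t| =
        |deriv (s1 c) t| / ∫ t, s1 c t := by
      intro t
      rw [deriv_div_const, abs_div, abs_of_pos hm0]
    simp only [h1]
    rw [integral_div, s1_var hc, div_le_div_iff₀ hm0 (by positivity)]
    nlinarith

end Pool.Agent.L7h13.NAf
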