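import Pool.Agent.L7h13.NAf.Glue
import Pool.Agent.Y170.NA.Step

/-!
# Nearly affine homeomorphisms between open subsets of Euclidean space are limits of diffeomorphisms
(project NAf)
-/

set_option autoImplicit false

open Set Filter Topology Metric Function
open scoped ContDiff Manifold

noncomputable section

namespace Pool.Agent.L7h13.NAf

variable {n : ℕ}

theorem approx_near (hn : 0 < n) (U V : TopologicalSpace.Opens (E n)) (g : U ≃ₜ V)
    (hb : IsCompact {x : U | ¬ Pool.Agent.Y522.LD n g x}) {ε : ℝ} (hε0 : 0 ≤ ε)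
    (hε : 10 / 9 * ε * n < 1) {ρ : ℝ} (hρ : 0 < ρ)
    (hna : ∀ r0 : ℝ, 0 < r0 → ∃ r : ℝ, 0 < r ∧ r < r0 ∧
      ∀ b : U, ¬ Pool.Agent.Y522.LD n g b → ∀ x : U, dist (x : E n) (b : E n) < ρ →
      ∃ L : E n ≃L[ℝ] E n, ∀ y : U, dist (y : E n) (x : E n) ≤ r →
        ‖L ((g y : E n) - (g x : E n)) - ((y : E n) - (x : E n))‖ ≤ ε * r)
    (O : Set (U × V)) (hO : IsOpen O) (hgO : ∀ x, (x, g x) ∈ O) :
    ∃ (Φ : Diffeomorph (𝓡 n) (𝓡 n) U V ∞) (C : Set U), IsCompact C ∧ (∀ x, (x, Φ x) ∈ O) ∧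
      ∀ x, x ∉ C → Φ x = g x := by
  classical
  obtain ⟨f, hfd⟩ : ∃ f : E n → E n, f = fun x => if h : x ∈ U then (g ⟨x, h⟩ : E n) else 0 :=
    ⟨_, rfl⟩
  have hfU : ∀ x : U, f x = g x := by
    intro x
    rw [hfd]
    simp only [x.2, dif_pos]
  have hfU' : ∀ x (h : x ∈ U), f x = g ⟨x, h⟩ := fun x h => hfU ⟨x, h⟩
  have hfun : (fun v : U => f (v : E n)) = fun v : U => (g v : E n) := funext hfU
  have hfc : ContinuousOn f (U : Set (E n)) := by
    rw [continuousOn_iff_continuous_domRestrict]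
    have h1 : (U : Set (E n)).domRestrict f = fun v : U => (g v : E n) := hfun
    rw [h1]
    exact continuous_subtype_val.comp g.continuous
  have hld : ∀ x ∈ (U : Set (E n)), x ∉ Subtype.val '' {x : U | ¬ Pool.Agent.Y522.LD n g x} →
      LD f x := by
    intro x hx hxB
    have h1 : Pool.Agent.Y522.LD n g (⟨x, hx⟩ : U) := by
      by_contra h
      exact hxB ⟨⟨x, hx⟩, h, rfl⟩
    refine Pool.Agent.Y170.NA.LD_descend U f ⟨x, hx⟩ ?_
    rw [hfun]
    exact Pool.Agent.Y522.LD.comp_fun (Pool.Agent.Y170.NA.LD_val V _) h1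
  obtain ⟨O', hO'd⟩ : ∃ O' : Set (E n × E n), O' = Prod.map Subtype.val Subtype.val '' O := ⟨_, rfl⟩
  have hO'o : IsOpen O' := by
    rw [hO'd]
    exact (U.isOpenEmbedding'.prodMap V.isOpenEmbedding').isOpenMap O hO
  have hO'm : ∀ (x : U) (y : E n), ((x : E n), y) ∈ O' → ∃ h : y ∈ V, (x, (⟨y, h⟩ : V)) ∈ O := by
    intro x y hxy
    rw [hO'd] at hxy
    obtain ⟨⟨a, b⟩, hab, h2⟩ := hxy
    have h3 : (a : E n) = x := congrArg Prod.fst h2
    have h4 : (b : E n) = y := congrArg Prod.snd h2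
    subst h4
    have h5 : a = x := Subtype.ext h3
    subst h5
    exact ⟨b.2, hab⟩
  obtain ⟨F, C, hC, hCU, hoff, hF, hFO⟩ := glue hn U.isOpen hfc
    (hb.image continuous_subtype_val) (by rintro _ ⟨x, -, rfl⟩; exact x.2) hld hε0 hε hρ (by
      intro r0 hr0
      obtain ⟨r, h1, h2, h3⟩ := hna r0 hr0
      refine ⟨r, h1, h2, ?_⟩
      rintro _ ⟨b, hb1, rfl⟩ x hx hxb
      obtain ⟨L, hL⟩ := h3 b hb1 ⟨x, hx⟩ hxb
      refine ⟨L, fun y hy hyx => ?_⟩
      rw [hfU' y hy, hfU' x hx]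
      exact hL ⟨y, hy⟩ hyx) hO'o (by
      intro x hx
      rw [hfU' x hx, hO'd]
      exact ⟨(⟨x, hx⟩, g ⟨x, hx⟩), hgO _, rfl⟩)
  have hmem : ∀ (x : U) (s : ℝ), 0 ≤ s → s ≤ 1 → ∃ h : f x + s • (F x - f x) ∈ V,
      (x, (⟨f x + s • (F x - f x), h⟩ : V)) ∈ O := fun x s h0 h1 => hO'm x _ (hFO x x.2 s h0 h1)
  have hFm : ∀ x : U, ∃ h : F x ∈ V, (x, (⟨F x, h⟩ : V)) ∈ O := by
    intro x
    have h1 := hmem x 1 zero_le_one le_rfl
    rwa [one_smul, add_sub_cancel] at h1
  have hFc : Continuous fun x : U => F (x : E n) := by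
    rw [continuous_iff_continuousAt]
    intro x
    exact ContinuousAt.comp (f := fun x : U => (x : E n)) (g := F) (hF x x.2).continuousAt
      continuous_subtype_val.continuousAt
  have hfc2 : Continuous fun x : U => f (x : E n) := by
    rw [hfun]
    exact continuous_subtype_val.comp g.continuous
  let F' : C(U, V) := ⟨fun x => ⟨F x, (hFm x).1⟩, hFc.subtype_mk _⟩
  have hF' : ∀ x, Pool.Agent.Y522.LD n F' x := by
    intro x
    obtain ⟨p, hp1, hp2, -, hp4⟩ :=
      (Pool.Agent.Y170.NA.LD_val (n := n) V (F' x)).exists_inverse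
    have h3 : Pool.Agent.Y522.LD n (fun w : U => F w.1) x :=
      Pool.Agent.Y522.LD.comp_fun (g := F) (f := fun w : U => (w : E n)) (hF x.1 x.2)
        (Pool.Agent.Y170.NA.LD_val (n := n) U x)
    have h5 : Pool.Agent.Y522.LD n (fun w : U => p (F w.1)) x :=
      Pool.Agent.Y522.LD.comp_fun (g := p) (f := fun w : U => F w.1) hp1 h3
    refine Pool.Agent.Y522.LD.congr h5 ?_
    have h6 : ContinuousAt (fun w : U => F w.1) x := hFc.continuousAt
    filter_upwards [h6.tendsto.eventually hp4] with w hw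
    exact Subtype.ext hw.symm
  have hl : IsLocalDiffeomorph (𝓡 n) (𝓡 n) ∞ (F' : U → V) := hF'
  have hC' : IsCompact (Subtype.val ⁻¹' C : Set U) := by
    rw [Subtype.isCompact_iff, image_preimage_eq_of_subset]
    · exact hC
    · intro x hx
      exact ⟨⟨x, hCU hx⟩, rfl⟩
  let H : unitInterval × U → V := fun p =>
    ⟨f p.2 + (p.1 : ℝ) • (F p.2 - f p.2), (hmem p.2 p.1 p.1.2.1 p.1.2.2).1⟩
  have hH : Continuous H := by
    refine Continuous.subtype_mk ?_ _
    have h1 : Continuous fun p : unitInterval × U => f p.2 := hfc2.comp continuous_snd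
    have h2 : Continuous fun p : unitInterval × U => F p.2 := hFc.comp continuous_snd
    have h3 : Continuous fun p : unitInterval × U => (p.1 : ℝ) :=
      continuous_subtype_val.comp continuous_fst
    exact h1.add (h3.smul (h2.sub h1))
  have hrel : Pool.Agent.R765.HomRel O (Subtype.val ⁻¹' C) (⟨g, g.continuous⟩ : C(U, V)) F' := by
    refine Pool.Agent.R765.HomRel.of_fun H hH (fun x => ?_) (fun x => ?_) (fun s x => ?_)
      fun s x hx => ?_
    · apply Subtype.ext
      show f x + ((0 : unitInterval) : ℝ) • (F x - f x) = g x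
      rw [← hfU]
      simp
    · apply Subtype.ext
      show f x + ((1 : unitInterval) : ℝ) • (F x - f x) = F x
      simp
    · exact (hmem x s s.2.1 s.2.2).2
    · apply Subtype.ext
      show f x + (s : ℝ) • (F x - f x) = g x
      rw [hoff x hx, hfU]
      simp
  have hbij : Bijective F' :=
    Pool.Agent.R765.bijective_of_homRel g F' hl.isLocalHomeomorph O _ hC' hrel
  refine ⟨hl.diffeomorphOfBijective hbij, Subtype.val ⁻¹' C, hC', fun x => (hFm x).2, fun x hx => ?_⟩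
  apply Subtype.ext
  show F x = g x
  rw [hoff x hx, hfU]

end Pool.Agent.L7h13.NAf
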