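import Pool.Agent.L7h13.NAf.Prod

/-!
# Mollification at one scale (project NAf)
-/

set_option autoImplicit false

open Set Filter Topology MeasureTheory
open scoped ContDiff Convolution

noncomputable section

namespace Pool.Agent.L7h13.NAf

variable {n : ℕ}

/-- kernels at the scale `c` -/
structure IsKer (n : ℕ) (c : ℝ) (K : E n → ℝ) : Prop where
  smooth : ContDiff ℝ ∞ K
  compact : HasCompactSupport K
  nonneg : ∀ y, 0 ≤ K y
  even : ∀ y, K (-y) = K y
  zero : ∀ y, (∃ i, c ≤ |y i|) → K y = 0
  one : ∫ y, K y = 1
  var : ∀ j, ∫ y, |fderiv ℝ K y (EuclideanSpace.single j 1)| ≤ 10 / (9 * c)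

theorem exists_isKer (n : ℕ) {c : ℝ} (hc : 0 < c) : ∃ K : E n → ℝ, IsKer n c K := by
  obtain ⟨K, h1, h2, h3, h4, h5, h6, h7⟩ := kerN n hc
  exact ⟨K, h1, h2, h3, h4, h5, h6, h7⟩

/-- mollification -/
def moll (K : E n → ℝ) (f : E n → E n) (x : E n) : E n := ∫ t, K (x - t) • f t

/-- the bilinear map -/
def sm (n : ℕ) : E n →L[ℝ] ℝ →L[ℝ] E n := (ContinuousLinearMap.lsmul ℝ ℝ).flip

theorem moll_eq (K : E n → ℝ) (f : E n → E n) : moll K f = f ⋆[sm n, volume] K := rfl

theorem moll_contDiff {K : E n → ℝ} (hK : ContDiff ℝ ∞ K) (hKc : HasCompactSupport K)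
    {f : E n → E n} (hf : LocallyIntegrable f volume) : ContDiff ℝ ∞ (moll K f) := by
  rw [moll_eq]
  exact hKc.contDiff_convolution_right (sm n) hf hK

theorem integrable_smul {g : E n → ℝ} (hg : Continuous g) (hgc : HasCompactSupport g)
    {f : E n → E n} (hf : LocallyIntegrable f volume) (x : E n) :
    Integrable fun t => g (x - t) • f t :=
  hgc.convolutionExists_right (sm n) hf hg x

theorem fderiv_moll {K : E n → ℝ} (hK : ContDiff ℝ ∞ K) (hKc : HasCompactSupport K)
    {f : E n → E n} (hf : LocallyIntegrable f volume) (x v : E n) :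
    fderiv ℝ (moll K f) x v = ∫ t, (fderiv ℝ K (x - t) v) • f t := by
  have h1 : HasFDerivAt (moll K f) ((f ⋆[(sm n).precompR (E n), volume] fderiv ℝ K) x) x := by
    rw [moll_eq]
    exact hKc.hasFDerivAt_convolution_right (sm n) hf (hK.of_le (by simp)) x
  rw [h1.fderiv]
  have h2 : Integrable fun t => ((sm n).precompR (E n)) (f t) (fderiv ℝ K (x - t)) :=
    (hKc.fderiv (𝕜 := ℝ)).convolutionExists_right ((sm n).precompR (E n)) hf
      (hK.continuous_fderiv (by simp)) x
  have h3 := ContinuousLinearMap.integral_apply h2 v
  have h4 : ((f ⋆[(sm n).precompR (E n), volume] fderiv ℝ K) x) =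
      ∫ t, ((sm n).precompR (E n)) (f t) (fderiv ℝ K (x - t)) := rfl
  rw [h4, h3]
  rfl

theorem moll_affine {c : ℝ} {K : E n → ℝ} (hK : IsKer n c K) (a x₀ : E n) (A : E n →L[ℝ] E n)
    (x : E n) : moll K (fun t => a + A (t - x₀)) x = a + A (x - x₀) := by
  have hi : Integrable K := hK.smooth.continuous.integrable_of_hasCompactSupport hK.compact
  have hi2 : Integrable fun u => K u • A u :=
    (hK.smooth.continuous.smul A.continuous).integrable_of_hasCompactSupport
      hK.compact.smul_right
  have h1 : moll K (fun t => a + A (t - x₀)) x = ∫ u, K u • (a + A (x - u - x₀)) := by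
    unfold moll
    have h2 := integral_sub_left_eq_self (fun u => K u • (a + A (x - u - x₀))) volume x
    rw [← h2]
    refine integral_congr_ae (Eventually.of_forall fun t => ?_)
    simp only [sub_sub_cancel]
  have h3 : ∀ u, K u • (a + A (x - u - x₀)) = K u • (a + A (x - x₀)) - K u • A u := by
    intro u
    rw [← smul_sub]
    congr 1
    rw [show x - u - x₀ = (x - x₀) - u by abel, map_sub]
    abel
  have h4 : ∫ u, K u • A u = 0 := by
    have h5 := integral_neg_eq_self (fun u => K u • A u) (volume : Measure (E n))
    have h6 : ∀ u, K (-u) • A (-u) = -(K u • A u) := by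
      intro u
      rw [hK.even, map_neg, smul_neg]
    simp only [h6] at h5
    rw [integral_neg] at h5
    have h7 : (2 : ℝ) • ∫ u, K u • A u = 0 := by
      rw [two_smul]
      nth_rewrite 1 [← h5]
      exact neg_add_cancel _
    exact (smul_eq_zero.1 h7).resolve_left two_ne_zero
  rw [h1]
  simp only [h3]
  rw [integral_sub (hi.smul_const _) hi2, h4, sub_zero, integral_smul_const, hK.one, one_smul]

theorem moll_close {c : ℝ} {K : E n → ℝ} (hK : IsKer n c K) {f : E n → E n}
    (hf : LocallyIntegrable f volume) (x a : E n) {η : ℝ} (hη : 0 ≤ η)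
    (h : ∀ t, (∀ i, |(t - x) i| < c) → ‖f t - a‖ ≤ η) : ‖moll K f x - a‖ ≤ η := by
  have ha : moll K (fun _ => a) x = a := by
    have := moll_affine hK a x 0 x
    simpa using this
  have h1 : moll K f x - a = ∫ t, K (x - t) • (f t - a) := by
    have h0 : moll K f x - moll K (fun _ => a) x = ∫ t, K (x - t) • (f t - a) := by
      unfold moll
      rw [← integral_sub (integrable_smul hK.smooth.continuous hK.compact hf x)
        (integrable_smul hK.smooth.continuous hK.compact (f := fun _ => a)
          continuous_const.locallyIntegrable x)]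
      refine integral_congr_ae (Eventually.of_forall fun t => ?_)
      simp only [smul_sub]
    rw [← h0, ha]
  have h2 : Integrable fun t => K (x - t) := by
    have := (hK.smooth.continuous.integrable_of_hasCompactSupport (μ := volume) hK.compact)
    exact this.comp_sub_left x
  have h3 : ∫ t, K (x - t) = 1 := by
    rw [integral_sub_left_eq_self K volume x, hK.one]
  rw [h1]
  calc ‖∫ t, K (x - t) • (f t - a)‖ ≤ ∫ t, K (x - t) * η := by
        refine norm_integral_le_of_norm_le (h2.mul_const η) (Eventually.of_forall fun t => ?_)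
        rw [norm_smul, Real.norm_of_nonneg (hK.nonneg _)]
        by_cases hz : K (x - t) = 0
        · rw [hz, zero_mul, zero_mul]
        · refine mul_le_mul_of_nonneg_left (h t fun i => ?_) (hK.nonneg _)
          by_contra hcon
          apply hz
          apply hK.zero
          refine ⟨i, ?_⟩
          rw [not_lt] at hcon
          have : (x - t) i = -((t - x) i) := by simp
          rw [this, abs_neg]
          exact hcon
    _ = η := by rw [integral_mul_const, h3, one_mul]

/-- the derivative of the mollification of a nearly affine map -/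
theorem fderiv_moll_close {c : ℝ} (hc : 0 < c) {K : E n → ℝ} (hK : IsKer n c K) {f : E n → E n}
    (hf : LocallyIntegrable f volume) (x a : E n) (A : E n →L[ℝ] E n) {η : ℝ} (hη : 0 ≤ η)
    (h : ∀ t, (∀ i, |(t - x) i| < c) → ‖f t - (a + A (t - x))‖ ≤ η) (j : Fin n) :
    ‖fderiv ℝ (moll K f) x (EuclideanSpace.single j 1) - A (EuclideanSpace.single j 1)‖ ≤
      η * (10 / (9 * c)) := by
  have hgc : Continuous fun t : E n => a + A (t - x) := by fun_prop
  have hA : fderiv ℝ (moll K fun t => a + A (t - x)) x (EuclideanSpace.single j 1) =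
      A (EuclideanSpace.single j 1) := by
    have h1 : (moll K fun t => a + A (t - x)) = fun y => a + A (y - x) :=
      funext fun y => moll_affine hK a x A y
    rw [h1]
    have h2 : HasFDerivAt (fun y => a + A (y - x)) A x := by
      have h3 : HasFDerivAt (fun y : E n => y - x) (ContinuousLinearMap.id ℝ (E n)) x :=
        (hasFDerivAt_id x).sub_const x
      have h4 : HasFDerivAt (fun y : E n => A (y - x)) (A.comp (ContinuousLinearMap.id ℝ (E n))) x :=
        HasFDerivAt.comp (g := A) x A.hasFDerivAt h3
      rw [ContinuousLinearMap.comp_id] at h4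
      exact h4.const_add a
    rw [h2.fderiv]
  have hgi : Continuous fun y => fderiv ℝ K y (EuclideanSpace.single j 1) :=
    (hK.smooth.continuous_fderiv (by simp)).clm_apply continuous_const
  have hgs : HasCompactSupport fun y => fderiv ℝ K y (EuclideanSpace.single j 1) :=
    (hK.compact.fderiv (𝕜 := ℝ)).comp_left (g := fun L : E n →L[ℝ] ℝ =>
      L (EuclideanSpace.single j 1)) (by simp)
  rw [← hA, fderiv_moll hK.smooth hK.compact hf, fderiv_moll hK.smooth hK.compact
    hgc.locallyIntegrable, ← integral_sub (integrable_smul hgi hgs hf x)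
    (integrable_smul hgi hgs hgc.locallyIntegrable x)]
  have h2 : Integrable fun t => |fderiv ℝ K (x - t) (EuclideanSpace.single j 1)| := by
    have := (hgi.integrable_of_hasCompactSupport (μ := volume) hgs).norm
    exact this.comp_sub_left x
  calc _ ≤ ∫ t, |fderiv ℝ K (x - t) (EuclideanSpace.single j 1)| * η := by
        refine norm_integral_le_of_norm_le (h2.mul_const η) (Eventually.of_forall fun t => ?_)
        rw [← smul_sub, norm_smul, Real.norm_eq_abs]
        by_cases hz : ∃ i, c ≤ |(x - t) i|
        · have h3 : fderiv ℝ K (x - t) = 0 := by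
            have h4 : IsLocalMin K (x - t) := by
              refine Eventually.of_forall fun y => ?_
              rw [hK.zero _ hz]
              exact hK.nonneg y
            exact h4.fderiv_eq_zero
          rw [h3]
          simp
        · refine mul_le_mul_of_nonneg_left (h t fun i => ?_) (abs_nonneg _)
          by_contra hcon
          apply hz
          refine ⟨i, ?_⟩
          rw [not_lt] at hcon
          have : (x - t) i = -((t - x) i) := by simp
          rw [this, abs_neg]
          exact hcon
    _ = η * ∫ t, |fderiv ℝ K (x - t) (EuclideanSpace.single j 1)| := by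
        rw [integral_mul_const, mul_comm]
    _ ≤ η * (10 / (9 * c)) := by
        refine mul_le_mul_of_nonneg_left ?_ hη
        rw [integral_sub_left_eq_self (fun y => |fderiv ℝ K y (EuclideanSpace.single j 1)|) volume x]
        exact hK.var j

end Pool.Agent.L7h13.NAf
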