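import Pool.Agent.L7h13.NAf.Ker

/-!
# Product kernels on Euclidean space (project NAf)
-/

set_option autoImplicit false

open Set Filter Topology MeasureTheory
open scoped ContDiff

noncomputable section

namespace Pool.Agent.L7h13.NAf

/-- Euclidean space -/
abbrev E (n : ℕ) := EuclideanSpace ℝ (Fin n)

theorem integral_prod_E (n : ℕ) (f : Fin n → ℝ → ℝ) :
    ∫ y : E n, ∏ i, f i (y i) = ∏ i, ∫ t, f i t := by
  have h1 := (PiLp.volume_preserving_ofLp (Fin n)).integral_comp
    (MeasurableEquiv.toLp 2 (Fin n → ℝ)).symm.measurableEmbedding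
    (fun z : Fin n → ℝ => ∏ i, f i (z i))
  rw [integral_fintype_prod_volume_eq_prod] at h1
  exact h1

theorem kerN (n : ℕ) {c : ℝ} (hc : 0 < c) : ∃ K : E n → ℝ, ContDiff ℝ ∞ K ∧
    HasCompactSupport K ∧ (∀ y, 0 ≤ K y) ∧
    (∀ y, K (-y) = K y) ∧ (∀ y, (∃ i, c ≤ |y i|) → K y = 0) ∧ ∫ y, K y = 1 ∧
    ∀ j, ∫ y, |fderiv ℝ K y (EuclideanSpace.single j 1)| ≤ 10 / (9 * c) := by
  classical
  obtain ⟨k, hk, hk0, hke, hkz, hk1, hkv⟩ := ker1 hc
  have hK : ContDiff ℝ ∞ (fun y : E n => ∏ i, k (y i)) := by
    refine contDiff_prod fun i _ => hk.comp ?_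
    exact (EuclideanSpace.proj i : E n →L[ℝ] ℝ).contDiff
  have hz : ∀ y : E n, (∃ i, c ≤ |y i|) → ∏ i, k (y i) = 0 := by
    rintro y ⟨i, hi⟩
    exact Finset.prod_eq_zero (Finset.mem_univ i) (hkz _ hi)
  refine ⟨fun y => ∏ i, k (y i), hK, ?_, fun y => Finset.prod_nonneg fun i _ => hk0 _, fun y => ?_,
    hz, ?_, fun j => ?_⟩
  · refine HasCompactSupport.of_support_subset_isCompact
      (isCompact_closedBall (0 : E n) (Real.sqrt n * c)) fun y hy => ?_
    have h1 : ∀ i, |y i| ≤ c := by
      intro i
      by_contra hcon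
      exact hy (hz y ⟨i, (not_le.1 hcon).le⟩)
    rw [mem_closedBall_zero_iff, EuclideanSpace.norm_eq]
    have h2 : ∑ i, ‖y i‖ ^ 2 ≤ n * c ^ 2 := by
      calc ∑ i, ‖y i‖ ^ 2 ≤ ∑ _i : Fin n, c ^ 2 := by
            refine Finset.sum_le_sum fun i _ => ?_
            rw [Real.norm_eq_abs]
            exact pow_le_pow_left₀ (abs_nonneg _) (h1 i) 2
        _ = n * c ^ 2 := by simp
    calc Real.sqrt (∑ i, ‖y i‖ ^ 2) ≤ Real.sqrt (n * c ^ 2) := Real.sqrt_le_sqrt h2
      _ = Real.sqrt n * c := by rw [Real.sqrt_mul (by positivity), Real.sqrt_sq hc.le]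
  · refine Finset.prod_congr rfl fun i _ => ?_
    exact hke (y i)
  · rw [integral_prod_E]
    simp [hk1]
  · have hd : ∀ y : E n, fderiv ℝ (fun y : E n => ∏ i, k (y i)) y (EuclideanSpace.single j 1) =
        deriv k (y j) * ∏ i ∈ Finset.univ.erase j, k (y i) := by
      intro y
      have h1 : HasFDerivAt (fun y : E n => ∏ i, k (y i))
          (fderiv ℝ (fun y : E n => ∏ i, k (y i)) y) (y + (0 : ℝ) • EuclideanSpace.single j 1) := by
        rw [zero_smul, add_zero]
        exact (hK.differentiable (by simp)).differentiableAt.hasFDerivAt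
      have h2 : HasDerivAt (fun t : ℝ => y + t • (EuclideanSpace.single j (1 : ℝ) : E n))
          (EuclideanSpace.single j 1) 0 := by
        have := ((hasDerivAt_id (0 : ℝ)).smul_const
          (EuclideanSpace.single j (1 : ℝ) : E n)).const_add y
        simpa using this
      have h3 := h1.comp_hasDerivAt (0 : ℝ) h2
      have h4 : ((fun y : E n => ∏ i, k (y i)) ∘ fun t : ℝ =>
          y + t • (EuclideanSpace.single j (1 : ℝ) : E n)) =
          fun t => k (y j + t) * ∏ i ∈ Finset.univ.erase j, k (y i) := by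
        funext t
        simp only [Function.comp]
        rw [← Finset.mul_prod_erase Finset.univ _ (Finset.mem_univ j)]
        congr 1
        · simp
        · refine Finset.prod_congr rfl fun i hi => ?_
          have hij : i ≠ j := Finset.ne_of_mem_erase hi
          simp [hij]
      rw [h4] at h3
      have h5 : HasDerivAt (fun t => k (y j + t) * ∏ i ∈ Finset.univ.erase j, k (y i))
          (deriv k (y j) * ∏ i ∈ Finset.univ.erase j, k (y i)) 0 := by
        have h6 : HasDerivAt (fun t => k (y j + t)) (deriv k (y j)) 0 := by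
          have h7 : HasDerivAt k (deriv k (y j + 0)) (y j + 0) :=
            (hk.differentiable (by simp)).differentiableAt.hasDerivAt
          have := h7.comp_const_add (y j) 0
          simpa using this
        exact h6.mul_const _
      exact h3.unique h5
    have h1 : ∀ y : E n, |fderiv ℝ (fun y : E n => ∏ i, k (y i)) y (EuclideanSpace.single j 1)| =
        ∏ i, (if i = j then fun t => |deriv k t| else k) (y i) := by
      intro y
      rw [hd, abs_mul, abs_of_nonneg (Finset.prod_nonneg fun i _ => hk0 (y i)),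
        ← Finset.mul_prod_erase Finset.univ _ (Finset.mem_univ j)]
      congr 1
      · simp
      · refine Finset.prod_congr rfl fun i hi => ?_
        rw [if_neg (Finset.ne_of_mem_erase hi)]
    simp only [h1]
    rw [integral_prod_E n (fun i => if i = j then fun t => |deriv k t| else k),
      ← Finset.mul_prod_erase Finset.univ _ (Finset.mem_univ j)]
    have h2 : ∏ i ∈ Finset.univ.erase j,
        ∫ t, (if i = j then fun t => |deriv k t| else k) t = 1 := by
      refine Finset.prod_eq_one fun i hi => ?_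
      rw [if_neg (Finset.ne_of_mem_erase hi)]
      exact hk1
    rw [h2, mul_one]
    simpa using hkv

end Pool.Agent.L7h13.NAf
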