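import Pool.Agent.L7h13.NAf.Glue

/-!
# Near similarities are nearly affine (project NAf)
-/

set_option autoImplicit false

open Set Filter Topology Metric Function
open scoped RealInnerProductSpace

noncomputable section

namespace Pool.Agent.L7h13.NAf

variable {n : ℕ}

theorem abs_sq_sub_sq {a d δ r : ℝ} (ha : 0 ≤ a) (hd : 0 ≤ d) (hδ : 0 ≤ δ) (hr : 0 ≤ r)
    (h : |a - d| ≤ δ * r) {k : ℝ} (hk : d ≤ k * r) : |a * a - d * d| ≤ (2 * k + δ) * δ * r ^ 2 := by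
  have h1 : a * a - d * d = (a - d) * (a + d) := by ring
  rw [h1, abs_mul, abs_of_nonneg (add_nonneg ha hd)]
  have h2 : a ≤ d + δ * r := by
    have := (abs_le.1 h).2
    linarith
  calc |a - d| * (a + d) ≤ (δ * r) * (2 * (k * r) + δ * r) := by
        refine mul_le_mul h (by linarith) (by positivity) (by positivity)
    _ = (2 * k + δ) * δ * r ^ 2 := by ring

theorem inner_close {F : E n → E n} {δ r : ℝ} (hδ : 0 ≤ δ) (hr : 0 ≤ r) (h0 : F 0 = 0)
    (hF : ∀ w w' : E n, ‖w‖ ≤ r → ‖w'‖ ≤ r → |‖F w - F w'‖ - ‖w - w'‖| ≤ δ * r)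
    {w w' : E n} (hw : ‖w‖ ≤ r) (hw' : ‖w'‖ ≤ r) :
    |⟪F w, F w'⟫ - ⟪w, w'⟫| ≤ (8 + 3 * δ) / 2 * δ * r ^ 2 := by
  rw [real_inner_eq_norm_mul_self_add_norm_mul_self_sub_norm_sub_mul_self_div_two,
    real_inner_eq_norm_mul_self_add_norm_mul_self_sub_norm_sub_mul_self_div_two]
  have hz : ‖(0 : E n)‖ ≤ r := by simpa using hr
  have h1 := hF w 0 hw hz
  have h2 := hF w' 0 hw' hz
  have h3 := hF w w' hw hw'
  rw [h0, sub_zero, sub_zero] at h1 h2
  have h1' := abs_sq_sub_sq (norm_nonneg _) (norm_nonneg _) hδ hr h1 (k := 1) (by linarith)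
  have h2' := abs_sq_sub_sq (norm_nonneg _) (norm_nonneg _) hδ hr h2 (k := 1) (by linarith)
  have h4 : ‖w - w'‖ ≤ 2 * r := (norm_sub_le _ _).trans (by linarith)
  have h3' := abs_sq_sub_sq (norm_nonneg _) (norm_nonneg _) hδ hr h3 h4
  rw [abs_le] at *
  constructor <;> nlinarith

/-- the norm in terms of the coordinates -/
theorem norm_le_of_coord' {κ : ℝ} (hκ : 0 ≤ κ) {v : E n} (h : ∀ i, |v i| ≤ κ) :
    ‖v‖ ≤ Real.sqrt n * κ := by
  rw [EuclideanSpace.norm_eq]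
  have h2 : ∑ i, ‖v i‖ ^ 2 ≤ n * κ ^ 2 := by
    calc ∑ i, ‖v i‖ ^ 2 ≤ ∑ _i : Fin n, κ ^ 2 := by
          refine Finset.sum_le_sum fun i _ => ?_
          rw [Real.norm_eq_abs]
          exact pow_le_pow_left₀ (abs_nonneg _) (h i) 2
      _ = n * κ ^ 2 := by simp
  calc Real.sqrt (∑ i, ‖v i‖ ^ 2) ≤ Real.sqrt (n * κ ^ 2) := Real.sqrt_le_sqrt h2
    _ = Real.sqrt n * κ := by rw [Real.sqrt_mul (by positivity), Real.sqrt_sq hκ]

theorem exists_linear {F : E n → E n} {δ r : ℝ} (hδ : 0 ≤ δ) (hr : 0 < r) (h0 : F 0 = 0)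
    (hF : ∀ w w' : E n, ‖w‖ ≤ r → ‖w'‖ ≤ r → |‖F w - F w'‖ - ‖w - w'‖| ≤ δ * r)
    (hn : (8 + 3 * δ) / 2 * δ * n < 1) :
    ∃ T : E n ≃L[ℝ] E n, ∀ w, ‖w‖ ≤ r → ‖T (F w) - w‖ ≤ Real.sqrt n * ((8 + 3 * δ) / 2 * δ) * r := by
  obtain ⟨κ, hκd⟩ : ∃ κ : ℝ, κ = (8 + 3 * δ) / 2 * δ := ⟨_, rfl⟩
  have hκ : 0 ≤ κ := by rw [hκd]; positivity
  rw [← hκd] at hn ⊢
  have hin : ∀ w w' : E n, ‖w‖ ≤ r → ‖w'‖ ≤ r → |⟪F w, F w'⟫ - ⟪w, w'⟫| ≤ κ * r ^ 2 := by
    intro w w' hw hw'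
    rw [hκd]
    exact inner_close hδ hr.le h0 hF hw hw'
  obtain ⟨e, hed⟩ : ∃ e : Fin n → E n, e = fun i => r • EuclideanSpace.single i (1 : ℝ) := ⟨_, rfl⟩
  have he : ∀ i, ‖e i‖ ≤ r := by
    intro i
    rw [hed]
    simp [norm_smul, abs_of_pos hr]
  have hei : ∀ i (w : E n), ⟪e i, w⟫ = r * w i := by
    intro i w
    rw [hed]
    simp only [real_inner_smul_left]
    congr 1
    rw [EuclideanSpace.inner_single_left]
    simp
  let T : E n →L[ℝ] E n := ∑ i, (r⁻¹ • innerSL ℝ (F (e i))).smulRight (EuclideanSpace.single i (1 : ℝ))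
  have hT : ∀ v i, (T v) i = r⁻¹ * ⟪F (e i), v⟫ := by
    intro v i
    simp only [T, sum_apply, ContinuousLinearMap.smulRight_apply, smul_apply,
      innerSL_apply_apply, smul_eq_mul]
    rw [WithLp.ofLp_sum, Finset.sum_apply]
    rw [Finset.sum_eq_single i]
    · simp
    · intro j _ hj
      simp [Ne.symm hj]
    · intro h
      exact absurd (Finset.mem_univ i) h
  have hTF : ∀ w : E n, ‖w‖ ≤ r → ∀ i, |(T (F w) - w) i| ≤ κ * r := by
    intro w hw i
    have h1 : (T (F w) - w) i = r⁻¹ * (⟪F (e i), F w⟫ - ⟪e i, w⟫) := by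
      rw [hei]
      show (T (F w)) i - w i = _
      rw [hT]
      field_simp
    rw [h1, abs_mul, abs_of_pos (inv_pos.2 hr)]
    have h2 := hin (e i) w (he i) hw
    calc r⁻¹ * |⟪F (e i), F w⟫ - ⟪e i, w⟫| ≤ r⁻¹ * (κ * r ^ 2) :=
          mul_le_mul_of_nonneg_left h2 (inv_pos.2 hr).le
      _ = κ * r := by field_simp
  -- `T` is invertible
  let S : E n →L[ℝ] E n := ∑ j, (EuclideanSpace.proj j : E n →L[ℝ] ℝ).smulRight (r⁻¹ • F (e j))
  have hS : ∀ j, S (EuclideanSpace.single j 1) = r⁻¹ • F (e j) := by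
    intro j
    simp only [S, sum_apply, ContinuousLinearMap.smulRight_apply]
    rw [Finset.sum_eq_single j]
    · simp
    · intro i _ hi
      simp [hi]
    · intro h
      exact absurd (Finset.mem_univ j) h
  have hTS : ∀ j, ‖(T.comp S - ContinuousLinearMap.id ℝ (E n)) (EuclideanSpace.single j 1)‖ ≤
      Real.sqrt n * κ := by
    intro j
    refine norm_le_of_coord' hκ fun i => ?_
    have h1 : (T.comp S - ContinuousLinearMap.id ℝ (E n)) (EuclideanSpace.single j 1) =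
        r⁻¹ • (T (F (e j)) - e j) := by
      have h2 : e j = r • EuclideanSpace.single j (1 : ℝ) := by rw [hed]
      have h3 : (T.comp S - ContinuousLinearMap.id ℝ (E n)) (EuclideanSpace.single j 1) =
        T (S (EuclideanSpace.single j 1)) - EuclideanSpace.single j 1 := rfl
      rw [h3, hS, smul_sub, map_smul]
      congr 1
      rw [h2, smul_smul, inv_mul_cancel₀ hr.ne', one_smul]
    rw [h1]
    show |r⁻¹ * (T (F (e j)) - e j) i| ≤ κ
    rw [abs_mul, abs_of_pos (inv_pos.2 hr), inv_mul_le_iff₀ hr, mul_comm r κ]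
    exact hTF (e j) (he j) i
  have hinj : Injective (T.comp S) := by
    rw [injective_iff_map_eq_zero]
    intro v hv
    by_contra hv0
    have h1 := norm_le_of_basis _ (by positivity) hTS v
    have h2 : (T.comp S - ContinuousLinearMap.id ℝ (E n)) v = -v := by
      have : (T.comp S - ContinuousLinearMap.id ℝ (E n)) v = (T.comp S) v - v := rfl
      rw [this, hv, zero_sub]
    rw [h2, norm_neg] at h1
    have h3 : Real.sqrt n * κ * Real.sqrt n = κ * n := by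
      have : Real.sqrt n * κ * Real.sqrt n = κ * (Real.sqrt n * Real.sqrt n) := by ring
      rw [this, Real.mul_self_sqrt (Nat.cast_nonneg n)]
    rw [h3] at h1
    have h4 : 0 < ‖v‖ := norm_pos_iff.2 hv0
    nlinarith
  have hTsurj : Surjective T := by
    have h1 : Surjective ((T.comp S : E n →L[ℝ] E n) : E n →ₗ[ℝ] E n) :=
      LinearMap.injective_iff_surjective.1 hinj
    intro y
    obtain ⟨v, hv⟩ := h1 y
    exact ⟨S v, hv⟩
  have hTinj : Injective (T : E n →ₗ[ℝ] E n) := LinearMap.injective_iff_surjective.2 hTsurj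
  refine ⟨(LinearEquiv.ofInjectiveEndo (T : E n →ₗ[ℝ] E n) hTinj).toContinuousLinearEquiv,
    fun w hw => ?_⟩
  have h1 : ((LinearEquiv.ofInjectiveEndo (T : E n →ₗ[ℝ] E n) hTinj).toContinuousLinearEquiv)
      (F w) = T (F w) := rfl
  rw [h1]
  have h2 := norm_le_of_coord' (by positivity) (hTF w hw)
  calc _ ≤ _ := h2
    _ = Real.sqrt n * κ * r := by ring

end Pool.Agent.L7h13.NAf
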